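import Pool.Agent.Helper32.KD2.Basic

/-! KD2-B1: Lipschitz bound in `(t,x)` and the transport derivative -/

namespace KD.II.B1

open Finset MeasureTheory

theorem q1_compact (d : ℕ) : IsCompact (Q1 d) := by
  have h : Q1 d = Set.Icc (-1 : ℝ) 0 ×ˢ (Metric.closedBall (0 : Vd d) 1 ×ˢ
      Metric.closedBall (0 : Vd d) 1) := by
    ext p
    simp only [Q1, Set.mem_ofPred_eq, Set.mem_prod, Set.mem_Icc, mem_closedBall_zero_iff]
    tauto
  rw [h]
  exact isCompact_Icc.prod ((isCompact_closedBall _ _).prod (isCompact_closedBall _ _))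

theorem reg_lip {d : ℕ} {f ft : ℝ → Vd d → Vd d → ℝ} {fx fv : ℝ → Vd d → Vd d → (Vd d →L[ℝ] ℝ)}
    {fvv : ℝ → Vd d → Vd d → (Vd d →L[ℝ] Vd d →L[ℝ] ℝ)} {D : Set (ℝ × Vd d × Vd d)}
    (hR : Reg f ft fx fv fvv D) (hQ : Q1 d ⊆ D) :
    ∃ C : ℝ, 0 ≤ C ∧ ∀ t x t' x' v, (t, x, v) ∈ Q1 d → (t', x', v) ∈ Q1 d →
      |f t x v - f t' x' v| ≤ C * (|t - t'| + ‖x - x'‖) := by
  obtain ⟨C1, hC1⟩ := (q1_compact d).exists_bound_of_continuousOn (hR.ct.mono hQ)
  obtain ⟨C2, hC2⟩ := (q1_compact d).exists_bound_of_continuousOn (hR.cx.mono hQ)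
  refine ⟨|C1| + |C2|, by positivity, ?_⟩
  intro t x t' x' v h h'
  obtain ⟨h1, h2, h3, h4⟩ := h
  obtain ⟨h1', h2', h3', -⟩ := h'
  simp only at h1 h2 h3 h4 h1' h2' h3'
  have A : |f t x v - f t' x v| ≤ |C1| * |t - t'| := by
    have := Convex.norm_image_sub_le_of_norm_hasDerivWithin_le (f := fun τ => f τ x v)
      (f' := fun τ => ft τ x v) (C := |C1|) (s := Set.Icc (-1 : ℝ) 0) (x := t') (y := t)
      (fun τ hτ => (hR.dt (τ, x, v) (hQ ⟨hτ.1, hτ.2, h3, h4⟩)).hasDerivWithinAt)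
      (fun τ hτ => (hC1 (τ, x, v) ⟨hτ.1, hτ.2, h3, h4⟩).trans (le_abs_self _))
      (convex_Icc _ _) ⟨h1', h2'⟩ ⟨h1, h2⟩
    simpa [Real.norm_eq_abs] using this
  have B : |f t' x v - f t' x' v| ≤ |C2| * ‖x - x'‖ := by
    have := Convex.norm_image_sub_le_of_norm_hasFDerivWithin_le (𝕜 := ℝ) (f := fun y => f t' y v)
      (f' := fun y => fx t' y v) (C := |C2|) (s := Metric.closedBall (0 : Vd d) 1) (x := x')
      (y := x)
      (fun y hy => (hR.dx (t', y, v)
        (hQ ⟨h1', h2', by simpa using hy, h4⟩)).hasFDerivWithinAt)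
      (fun y hy => (hC2 (t', y, v) ⟨h1', h2', by simpa using hy, h4⟩).trans (le_abs_self _))
      (convex_closedBall _ _) (by simpa using h3') (by simpa using h3)
    simpa [Real.norm_eq_abs] using this
  have h0 : |f t x v - f t' x' v| ≤ |f t x v - f t' x v| + |f t' x v - f t' x' v| :=
    abs_sub_le _ _ _
  have e1 : |C1| * |t - t'| ≤ (|C1| + |C2|) * |t - t'| :=
    mul_le_mul_of_nonneg_right (by linarith [abs_nonneg C2]) (abs_nonneg _)
  have e2 : |C2| * ‖x - x'‖ ≤ (|C1| + |C2|) * ‖x - x'‖ :=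
    mul_le_mul_of_nonneg_right (by linarith [abs_nonneg C1]) (norm_nonneg _)
  rw [mul_add]
  linarith

theorem reg_tr {d : ℕ} {f ft : ℝ → Vd d → Vd d → ℝ} {fx fv : ℝ → Vd d → Vd d → (Vd d →L[ℝ] ℝ)}
    {fvv : ℝ → Vd d → Vd d → (Vd d →L[ℝ] Vd d →L[ℝ] ℝ)} {D : Set (ℝ × Vd d × Vd d)}
    (hR : Reg f ft fx fv fvv D) (hQ : Q1 d ⊆ D) :
    ∀ e : ℝ, 0 < e → ∃ b : ℝ, 0 < b ∧ ∀ κ t x v, 0 < κ → κ ≤ b → (t, x, v) ∈ Q1 d →
      (t - κ, x - κ • v, v) ∈ Q1 d →
      f (t - κ) (x - κ • v) v ≤ f t x v - κ * (ft t x v + fx t x v v - e) := by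
  intro e he
  have u1 := (q1_compact d).uniformContinuousOn_of_continuous (hR.ct.mono hQ)
  have hc2 : ContinuousOn (fun p : ℝ × Vd d × Vd d => fx p.1 p.2.1 p.2.2 p.2.2) (Q1 d) :=
    (hR.cx.mono hQ).clm_apply (continuous_snd.comp continuous_snd).continuousOn
  have u2 := (q1_compact d).uniformContinuousOn_of_continuous hc2
  rw [Metric.uniformContinuousOn_iff] at u1 u2
  obtain ⟨δ1, hδ1, H1⟩ := u1 (e / 2) (by positivity)
  obtain ⟨δ2, hδ2, H2⟩ := u2 (e / 2) (by positivity)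
  refine ⟨min δ1 δ2 / 2, by positivity, ?_⟩
  intro κ t x v hκ hκb hp hp'
  have hb1 : κ < δ1 := by
    have := min_le_left δ1 δ2
    have : 0 < min δ1 δ2 := lt_min hδ1 hδ2
    linarith
  have hb2 : κ < δ2 := by
    have := min_le_right δ1 δ2
    have : 0 < min δ1 δ2 := lt_min hδ1 hδ2
    linarith
  obtain ⟨h1, h2, h3, h4⟩ := hp
  obtain ⟨h1', h2', h3', -⟩ := hp'
  simp only at h1 h2 h3 h4 h1' h2' h3'
  have hball : ∀ σ : ℝ, 0 ≤ σ → σ ≤ κ → ‖x - σ • v‖ ≤ 1 := by
    intro σ h0 h0'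
    have hconv := convex_closedBall (0 : Vd d) 1
    have hx : x ∈ Metric.closedBall (0 : Vd d) 1 := by simpa using h3
    have hx' : x - κ • v ∈ Metric.closedBall (0 : Vd d) 1 := by simpa using h3'
    have := hconv hx hx' (a := 1 - σ / κ) (b := σ / κ)
      (by rw [sub_nonneg, div_le_one hκ]; exact h0') (by positivity) (by ring)
    have e3 : (1 - σ / κ) • x + (σ / κ) • (x - κ • v) = x - σ • v := by
      rw [smul_sub, smul_smul, div_mul_cancel₀ _ hκ.ne', sub_smul, one_smul]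
      abel
    rw [e3] at this
    simpa using this
  -- time increment
  obtain ⟨ξ, hξ, hξ'⟩ := exists_hasDerivAt_eq_slope (fun τ => f τ (x - κ • v) v)
    (fun τ => ft τ (x - κ • v) v) (a := t - κ) (b := t) (by linarith)
    (fun τ hτ => (hR.dt (τ, x - κ • v, v) (hQ ⟨by simp only; linarith [hτ.1],
      by simp only; linarith [hτ.2], h3', h4⟩)).continuousAt.continuousWithinAt)
    (fun τ hτ => hR.dt (τ, x - κ • v, v) (hQ ⟨by simp only; linarith [hτ.1],
      by simp only; linarith [hτ.2], h3', h4⟩))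
  have hT : f (t - κ) (x - κ • v) v = f t (x - κ • v) v - κ * ft ξ (x - κ • v) v := by
    have : ft ξ (x - κ • v) v = (f t (x - κ • v) v - f (t - κ) (x - κ • v) v) / (t - (t - κ)) := hξ'
    rw [this, sub_sub_cancel]
    field_simp
    ring
  -- space increment
  obtain ⟨σ, hσ, hσ'⟩ := exists_hasDerivAt_eq_slope (fun σ : ℝ => f t (x - σ • v) v)
    (fun σ => - (fx t (x - σ • v) v v)) (a := 0) (b := κ) hκ
    (fun σ hσ => by
      have hd := hR.dx (t, x - σ • v, v) (hQ ⟨h1, h2, hball σ hσ.1 hσ.2, h4⟩)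
      have hl : HasDerivAt (fun σ : ℝ => x - σ • v) (-v) σ := by
        have := ((hasDerivAt_id σ).smul_const v).const_sub x
        simpa using this
      exact (hd.comp_hasDerivAt σ hl).continuousAt.continuousWithinAt)
    (fun σ hσ => by
      have hd := hR.dx (t, x - σ • v, v) (hQ ⟨h1, h2, hball σ hσ.1.le hσ.2.le, h4⟩)
      have hl : HasDerivAt (fun σ : ℝ => x - σ • v) (-v) σ := by
        have := ((hasDerivAt_id σ).smul_const v).const_sub x
        simpa using this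
      have h6 := hd.comp_hasDerivAt σ hl
      rw [map_neg] at h6
      exact h6)
  have hX : f t (x - κ • v) v = f t x v - κ * fx t (x - σ • v) v v := by
    have : - (fx t (x - σ • v) v v) = (f t (x - κ • v) v - f t (x - (0 : ℝ) • v) v) / (κ - 0) := hσ'
    rw [zero_smul, sub_zero, sub_zero] at this
    have h5 : κ * (- (fx t (x - σ • v) v v)) = f t (x - κ • v) v - f t x v := by
      rw [this]
      field_simp
    linarith
  have k1 : |ft ξ (x - κ • v) v - ft t x v| < e / 2 := by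
    have := H1 (ξ, x - κ • v, v) ⟨by simp only; linarith [hξ.1], by simp only; linarith [hξ.2],
      h3', h4⟩ (t, x, v) ⟨h1, h2, h3, h4⟩ ?_
    · simpa [Real.dist_eq] using this
    · rw [Prod.dist_eq, Prod.dist_eq]
      simp only [dist_self, dist_eq_norm]
      refine max_lt ?_ (max_lt ?_ hδ1)
      · rw [Real.norm_eq_abs, abs_lt]
        constructor <;> linarith [hξ.1, hξ.2]
      · rw [sub_sub_cancel_left, norm_neg, norm_smul, Real.norm_of_nonneg hκ.le]
        calc κ * ‖v‖ ≤ κ * 1 := mul_le_mul_of_nonneg_left h4 hκ.le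
          _ < δ1 := by linarith
  have k2 : |fx t (x - σ • v) v v - fx t x v v| < e / 2 := by
    have := H2 (t, x - σ • v, v) ⟨h1, h2, hball σ hσ.1.le hσ.2.le, h4⟩
      (t, x, v) ⟨h1, h2, h3, h4⟩ ?_
    · simpa [Real.dist_eq] using this
    · rw [Prod.dist_eq, Prod.dist_eq]
      simp only [dist_self, dist_eq_norm]
      refine max_lt hδ2 (max_lt ?_ hδ2)
      rw [sub_sub_cancel_left, norm_neg, norm_smul, Real.norm_of_nonneg hσ.1.le]
      calc σ * ‖v‖ ≤ σ * 1 := mul_le_mul_of_nonneg_left h4 hσ.1.le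
        _ < δ2 := by linarith [hσ.2]
  rw [hT, hX]
  have k3 := (abs_lt.1 k1).1
  have k4 := (abs_lt.1 k2).1
  have : κ * (ft t x v + fx t x v v - e) ≤
      κ * (ft ξ (x - κ • v) v + fx t (x - σ • v) v v) :=
    mul_le_mul_of_nonneg_left (by linarith) hκ.le
  rw [mul_add] at this
  linarith

end KD.II.B1
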